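import Pool.Agent.HL54.Cls

set_option autoImplicit false

open FirstOrder Cardinal

universe u

namespace Pool.Agent.HL54

variable {I : Type u}

theorem exists_pushout {A B C : Type u} (g₁ : A → B) (g₂ : A → C) (h₁ : Function.Injective g₁)
    (h₂ : Function.Injective g₂) : ∃ (N : Type u) (f₁ : B → N) (f₂ : C → N),
      Function.Injective f₁ ∧ Function.Injective f₂ ∧ (∀ x, f₁ (g₁ x) = f₂ (g₂ x)) ∧
      (∀ p q, f₁ p = f₂ q → ∃ x, g₁ x = p ∧ g₂ x = q) ∧
      ∀ z, z ∈ Set.range f₁ ∨ z ∈ Set.range f₂ := by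
  classical
  refine ⟨B ⊕ {y : C // y ∉ Set.range g₂}, Sum.inl,
    fun y => if h : y ∈ Set.range g₂ then Sum.inl (g₁ h.choose) else Sum.inr ⟨y, h⟩,
    Sum.inl_injective, ?_, ?_, ?_, ?_⟩
  · intro y z hyz
    simp only at hyz
    split_ifs at hyz with h h' h'
    · have h3 := h₁ (Sum.inl_injective hyz)
      rw [← h.choose_spec, h3, h'.choose_spec]
    · exact congrArg Subtype.val (Sum.inr_injective hyz)
  · intro x
    have h : g₂ x ∈ Set.range g₂ := ⟨x, rfl⟩
    simp only [h, dif_pos]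
    congr 2
    exact (h₂ h.choose_spec).symm
  · intro p q hpq
    by_cases h : q ∈ Set.range g₂
    · simp only [h, dif_pos] at hpq
      exact ⟨h.choose, (Sum.inl_injective hpq).symm, h.choose_spec⟩
    · simp only [h, dif_neg, not_false_eq_true] at hpq
      exact absurd hpq (by simp)
  · rintro (b | ⟨y, hy⟩)
    · exact Or.inl ⟨b, rfl⟩
    · refine Or.inr ⟨y, ?_⟩
      simp only [hy, dif_neg, not_false_eq_true]

theorem exists_lift_list {A B : Type u} (f : A → B) (l : List B) (h : ∀ y ∈ l, y ∈ Set.range f) :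
    ∃ l' : List A, l'.map f = l := by
  induction l with
  | nil => exact ⟨[], rfl⟩
  | cons z l ih =>
    obtain ⟨l', h2⟩ := ih (fun y hy => h y (List.mem_cons_of_mem _ hy))
    obtain ⟨w, hz⟩ := h z (List.mem_cons_self)
    exact ⟨w :: l', by rw [List.map_cons, hz, h2]⟩

/-- lists which come from both sides come from the bottom -/
theorem exists_common {A B C N : Type u} {g₁ : A → B} {g₂ : A → C} {f₁ : B → N} {f₂ : C → N}
    (hp : ∀ p q, f₁ p = f₂ q → ∃ x, g₁ x = p ∧ g₂ x = q) (l₁ : List B) (l₂ : List C)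
    (h : l₁.map f₁ = l₂.map f₂) : ∃ l₀ : List A, l₀.map g₁ = l₁ ∧ l₀.map g₂ = l₂ := by
  induction l₁ generalizing l₂ with
  | nil =>
    have : l₂ = [] := by simpa using h.symm
    exact ⟨[], rfl, by rw [this]; rfl⟩
  | cons a l₁ ih =>
    cases l₂ with
    | nil => simp at h
    | cons b l₂ =>
      rw [List.map_cons, List.map_cons, List.cons.injEq] at h
      obtain ⟨l₀, h3, h4⟩ := ih l₂ h.2
      obtain ⟨x, h5, h6⟩ := hp a b h.1
      exact ⟨x :: l₀, by rw [List.map_cons, h5, h3], by rw [List.map_cons, h6, h4]⟩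

open Classical in
/-- the colouring of the amalgam -/
noncomputable def amCol {A B C N D : Type u} (g₁ : A → B) (f₁ : B → N) (f₂ : C → N)
    (c₁ : List B → D) (c₂ : List C → D) (t : List A → D) (d : D) (l : List N) : D :=
  if h : ∃ l₁ : List B, l₁.map f₁ = l then c₁ h.choose
  else if h : ∃ l₂ : List C, l₂.map f₂ = l then c₂ h.choose
  else if h : ∃ l₀ : List A, (l₀.map g₁).map f₁ = l.tail.tail then t h.choose
  else d

/-- Amalgamation in `K_G` over a base which carries a `G`-structure. -/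
theorem KMem.amalgam {G : UClass (I → Bool)} {M₀ M₁ M₂ : Type u} [(lang I).Structure M₀]
    [(lang I).Structure M₁] [(lang I).Structure M₂] (g₁ : M₀ ↪[lang I] M₁)
    (g₂ : M₀ ↪[lang I] M₂) (h₁ : KMem G M₁) (h₂ : KMem G M₂) (t : List M₀ → I → Bool)
    (ht : G.mem M₀ t) : ∃ (N : Type u) (_ : (lang I).Structure N) (f₁ : M₁ ↪[lang I] N)
      (f₂ : M₂ ↪[lang I] N), KMem G N ∧ ∀ x : M₀, f₁ (g₁ x) = f₂ (g₂ x) := by
  obtain ⟨N, f₁, f₂, i₁, i₂, hc, hp, hcov⟩ := exists_pushout g₁ g₂ g₁.injective g₂.injective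
  let A : Bool → List N → Prop := fun b l =>
    (∃ l₁ : List M₁, l₁.map f₁ = l ∧ act (I := I) M₁ b l₁) ∨
      (∃ l₂ : List M₂, l₂.map f₂ = l ∧ act (I := I) M₂ b l₂)
  let c : List N → I → Bool := amCol g₁ f₁ f₂ (col (I := I) M₁) (col (I := I) M₂) t (fun _ => false)
  let str : (lang I).Structure N := mkStr A c
  have hA : ∀ b l, act (I := I) N b l ↔ A b l := fun b l => act_mkStr A c b l
  have hcol : ∀ l, col (I := I) N l = c l := fun l => col_mkStr A c l
  have a₁ : ∀ b l, act (I := I) N b (l.map f₁) ↔ act (I := I) M₁ b l := by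
    intro b l
    rw [hA]
    constructor
    · rintro (⟨l₁, h3, h4⟩ | ⟨l₂, h3, h4⟩)
      · rw [List.map_injective_iff.2 i₁ h3] at h4
        exact h4
      · obtain ⟨l₀, h5, h6⟩ := exists_common hp l l₂ h3.symm
        rw [← h6, act_map] at h4
        rw [← h5, act_map]
        exact h4
    · intro h
      exact Or.inl ⟨l, rfl, h⟩
  have a₂ : ∀ b l, act (I := I) N b (l.map f₂) ↔ act (I := I) M₂ b l := by
    intro b l
    rw [hA]
    constructor
    · rintro (⟨l₁, h3, h4⟩ | ⟨l₂, h3, h4⟩)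
      · obtain ⟨l₀, h5, h6⟩ := exists_common hp l₁ l h3
        rw [← h5, act_map] at h4
        rw [← h6, act_map]
        exact h4
      · rw [List.map_injective_iff.2 i₂ h3] at h4
        exact h4
    · intro h
      exact Or.inr ⟨l, rfl, h⟩
  have c₁ : ∀ l, col (I := I) N (l.map f₁) = col (I := I) M₁ l := by
    intro l
    rw [hcol]
    have h : ∃ l₁ : List M₁, l₁.map f₁ = l.map f₁ := ⟨l, rfl⟩
    simp only [c, amCol, dif_pos h]
    rw [List.map_injective_iff.2 i₁ h.choose_spec]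
  have c₂ : ∀ l, col (I := I) N (l.map f₂) = col (I := I) M₂ l := by
    intro l
    rw [hcol]
    by_cases h : ∃ l₁ : List M₁, l₁.map f₁ = l.map f₂
    · simp only [c, amCol, dif_pos h]
      obtain ⟨l₀, h5, h6⟩ := exists_common hp _ _ h.choose_spec
      rw [← h5, ← h6, col_map, col_map]
    · have h' : ∃ l₂ : List M₂, l₂.map f₂ = l.map f₂ := ⟨l, rfl⟩
      simp only [c, amCol, dif_neg h, dif_pos h']
      rw [List.map_injective_iff.2 i₂ h'.choose_spec]
  refine ⟨N, str, mkEmb f₁ i₁ a₁ c₁, mkEmb f₂ i₂ a₂ c₂, ?_, hc⟩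
  intro a b F hF
  -- where a list of active elements lives
  have key : ∀ (e : Bool) (a : N), (∀ l : List N, (∀ y ∈ l, y ∈ F) → act (I := I) N e (a :: l)) →
      (a ∈ Set.range f₁ ∧ F ⊆ Set.range f₁) ∨ (a ∈ Set.range f₂ ∧ F ⊆ Set.range f₂) := by
    intro e a ha
    by_contra hcon
    push Not at hcon
    obtain ⟨hc1, hc2⟩ := hcon
    have hl : ∀ (l : List N), (∀ y ∈ l, y ∈ F) →
        (∀ y ∈ a :: l, y ∈ Set.range f₁) ∨ (∀ y ∈ a :: l, y ∈ Set.range f₂) := by
      intro l hl
      rcases (hA _ _).1 (ha l hl) with ⟨l₁, h3, _⟩ | ⟨l₂, h3, _⟩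
      · left
        rw [← h3]
        intro y hy
        obtain ⟨w, _, rfl⟩ := List.mem_map.1 hy
        exact ⟨w, rfl⟩
      · right
        rw [← h3]
        intro y hy
        obtain ⟨w, _, rfl⟩ := List.mem_map.1 hy
        exact ⟨w, rfl⟩
    by_cases ha1 : a ∈ Set.range f₁
    · obtain ⟨x, hx, hx1⟩ := Set.not_subset.1 (hc1 ha1)
      by_cases ha2 : a ∈ Set.range f₂
      · obtain ⟨y, hy, hy2⟩ := Set.not_subset.1 (hc2 ha2)
        rcases hl [x, y] (by simp [hx, hy]) with h | h
        · exact hx1 (h x (by simp))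
        · exact hy2 (h y (by simp))
      · rcases hl [x] (by simp [hx]) with h | h
        · exact hx1 (h x (by simp))
        · exact ha2 (h a (by simp))
    · have ha2 : a ∈ Set.range f₂ := (hcov a).resolve_left ha1
      obtain ⟨y, hy, hy2⟩ := Set.not_subset.1 (hc2 ha2)
      rcases hl [y] (by simp [hy]) with h | h
      · exact ha1 (h a (by simp))
      · exact hy2 (h y (by simp))
  -- everything on one side
  have side : ∀ (M : Type u) [(lang I).Structure M] (f : M ↪[lang I] N), KMem G M →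
      a ∈ Set.range f → b ∈ Set.range f → F ⊆ Set.range f →
      G.mem F (fun l => col (I := I) N (a :: b :: l.map Subtype.val)) := by
    intro M _ f hM ha hb hFf
    obtain ⟨a', rfl⟩ := ha
    obtain ⟨b', rfl⟩ := hb
    have h3 := hM a' b' (f ⁻¹' F) (by
      intro l hl
      have h4 := hF (l.map f) (by
        intro y hy
        obtain ⟨w, hw, rfl⟩ := List.mem_map.1 hy
        exact hl w hw)
      rw [← List.map_cons, ← List.map_cons, act_map, act_map] at h4
      exact h4)
    choose k hk using fun (y : F) => hFf y.2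
    have h5 := G.comap (Y := F) (Z := (f ⁻¹' F : Set M))
      (fun y => ⟨k y, by rw [Set.mem_preimage, hk y]; exact y.2⟩)
      (fun x y hxy => Subtype.ext (by
        have h6 := congrArg Subtype.val hxy
        have h7 : k x = k y := h6
        rw [← hk x, ← hk y, h7])) _ h3
    convert h5 using 2 with l
    rw [← col_map f]
    congr 1
    simp only [List.map_cons, List.map_map, List.cons.injEq, true_and]
    apply List.map_congr_left
    intro y _
    exact (hk y).symm
  -- the mixed case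
  have mixed : (a ∉ Set.range f₁ ∨ b ∉ Set.range f₁) → (a ∉ Set.range f₂ ∨ b ∉ Set.range f₂) →
      F ⊆ Set.range f₁ → F ⊆ Set.range f₂ →
      G.mem F (fun l => col (I := I) N (a :: b :: l.map Subtype.val)) := by
    intro hab1 hab2 hF1 hF2
    have hx : ∀ y : F, ∃ x : M₀, f₁ (g₁ x) = y.1 := by
      intro y
      obtain ⟨p, hp1⟩ := hF1 y.2
      obtain ⟨q, hq1⟩ := hF2 y.2
      obtain ⟨x, hx1, hx2⟩ := hp p q (hp1.trans hq1.symm)
      exact ⟨x, by rw [hx1, hp1]⟩
    choose k hk using hx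
    have h5 := G.comap (Y := F) (Z := M₀) k (fun x y hxy => Subtype.ext (by
      rw [← hk x, ← hk y, hxy])) _ ht
    convert h5 using 2 with l
    rw [hcol]
    have hn1 : ¬ ∃ l₁ : List M₁, l₁.map f₁ = a :: b :: l.map Subtype.val := by
      rintro ⟨l₁, hl₁⟩
      have h6 : ∀ y ∈ a :: b :: l.map (Subtype.val : F → N), y ∈ Set.range f₁ := by
        rw [← hl₁]
        intro y hy
        obtain ⟨w, _, rfl⟩ := List.mem_map.1 hy
        exact ⟨w, rfl⟩
      rcases hab1 with h | h
      · exact h (h6 a (by simp))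
      · exact h (h6 b (by simp))
    have hn2 : ¬ ∃ l₂ : List M₂, l₂.map f₂ = a :: b :: l.map Subtype.val := by
      rintro ⟨l₁, hl₁⟩
      have h6 : ∀ y ∈ a :: b :: l.map (Subtype.val : F → N), y ∈ Set.range f₂ := by
        rw [← hl₁]
        intro y hy
        obtain ⟨w, _, rfl⟩ := List.mem_map.1 hy
        exact ⟨w, rfl⟩
      rcases hab2 with h | h
      · exact h (h6 a (by simp))
      · exact h (h6 b (by simp))
    have hy : ∃ l₀ : List M₀, (l₀.map g₁).map f₁ =
        (a :: b :: l.map (Subtype.val : F → N)).tail.tail := by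
      refine ⟨l.map k, ?_⟩
      rw [List.map_map, List.map_map]
      simp only [List.tail_cons]
      apply List.map_congr_left
      intro y _
      exact hk y
    simp only [c, amCol, dif_neg hn1, dif_neg hn2, dif_pos hy]
    congr 1
    have h7 := hy.choose_spec
    have h8 : ((l.map k).map g₁).map f₁ = (a :: b :: l.map (Subtype.val : F → N)).tail.tail := by
      rw [List.map_map, List.map_map]
      simp only [List.tail_cons]
      apply List.map_congr_left
      intro y _
      exact hk y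
    exact List.map_injective_iff.2 g₁.injective
      (List.map_injective_iff.2 i₁ (h7.trans h8.symm))
  rcases key false a (fun l hl => (hF l hl).1) with ⟨ha, hF1⟩ | ⟨ha, hF1⟩ <;>
    rcases key true b (fun l hl => (hF l hl).2) with ⟨hb, hF2⟩ | ⟨hb, hF2⟩
  · exact side M₁ (mkEmb f₁ i₁ a₁ c₁) h₁ ha hb hF1
  · by_cases hb1 : b ∈ Set.range f₁
    · exact side M₁ (mkEmb f₁ i₁ a₁ c₁) h₁ ha hb1 hF1
    by_cases ha2 : a ∈ Set.range f₂
    · exact side M₂ (mkEmb f₂ i₂ a₂ c₂) h₂ ha2 hb hF2
    exact mixed (Or.inr hb1) (Or.inl ha2) hF1 hF2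
  · by_cases hb2 : b ∈ Set.range f₂
    · exact side M₂ (mkEmb f₂ i₂ a₂ c₂) h₂ ha hb2 hF1
    by_cases ha1 : a ∈ Set.range f₁
    · exact side M₁ (mkEmb f₁ i₁ a₁ c₁) h₁ ha1 hb hF2
    exact mixed (Or.inl ha1) (Or.inr hb2) hF2 hF1
  · exact side M₂ (mkEmb f₂ i₂ a₂ c₂) h₂ ha hb hF1

end Pool.Agent.HL54
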