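import Pool.Agent.HL54.UClass

set_option autoImplicit false

open Cardinal

universe u

namespace Pool.Agent.HL54

/-- change of colours along a surjection -/
theorem Char.recolor {C D : Type u} (π : C → D) (hπ : Function.Surjective π)
    {μ : Cardinal.{u}} (h : Char D μ) : Char C μ := by
  obtain ⟨G, ⟨Y, t, hY, ht⟩, hb⟩ := h
  refine ⟨⟨fun X s => G.mem X (fun l => π (s l)), ?_, ?_⟩, ⟨Y, fun l => Function.surjInv hπ (t l), hY, ?_⟩, ?_⟩
  · intro A B f hf s hs
    exact G.comap f hf _ hs
  · intro A s hs
    exact G.loc _ hs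
  · have : (fun l => π (Function.surjInv hπ (t l))) = t := by
      funext l
      exact Function.surjInv_eq hπ (t l)
    show G.mem Y (fun l => π (Function.surjInv hπ (t l)))
    rw [this]
    exact ht
  · intro X s hs
    exact hb X _ hs

/-- colour all elements differently -/
theorem Char.base_self (D : Type u) (hD : Nonempty D) : Char D #D := by
  refine ⟨⟨fun X s => Function.Injective (fun x : X => s [x]), ?_, ?_⟩, ⟨D, fun l => l.headD hD.some, rfl, ?_⟩, ?_⟩
  · intro A B f hf s hs x y hxy
    exact hf (hs (by simpa using hxy))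
  · intro A s hs x y hxy
    classical
    have h1 := hs ({x, y} : Finset A)
    have h2 : (⟨x, by simp⟩ : {z // z ∈ ({x, y} : Finset A)}) = ⟨y, by simp⟩ :=
      h1 (by simpa using hxy)
    simpa using h2
  · intro x y hxy
    simpa using hxy
  · intro X s hs
    exact Cardinal.mk_le_of_injective hs

theorem surj_of_le {C D : Type u} (hD : Nonempty D) (h : #D ≤ #C) :
    ∃ π : C → D, Function.Surjective π := by
  obtain ⟨e⟩ := (Cardinal.le_def D C).1 h
  exact ⟨Function.invFun e, Function.invFun_surjective e.injective⟩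

theorem Char.base {C : Type u} {μ : Cardinal.{u}} (h0 : ℵ₀ ≤ μ) (h : μ ≤ #C) : Char C μ := by
  induction μ using Cardinal.inductionOn with
  | _ D =>
    have hD : Nonempty D := by
      rw [← Cardinal.mk_ne_zero_iff]
      intro h'
      rw [h'] at h0
      exact absurd h0 (not_le.2 Cardinal.aleph0_pos)
    obtain ⟨π, hπ⟩ := surj_of_le hD h
    exact (Char.base_self D hD).recolor π hπ

theorem Char.of_le {C D : Type u} (hD : Nonempty D) (h : #D ≤ #C) {μ : Cardinal.{u}}
    (hc : Char D μ) : Char C μ := by
  obtain ⟨π, hπ⟩ := surj_of_le hD h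
  exact hc.recolor π hπ

theorem Char.nonempty {C : Type u} {μ : Cardinal.{u}} (h : Char C μ) : Nonempty C := by
  obtain ⟨G, ⟨Y, t, hY, ht⟩, hb⟩ := h
  exact ⟨t []⟩

end Pool.Agent.HL54
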