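import Pool.Agent.HL54.Lang

set_option autoImplicit false

open FirstOrder Cardinal

universe u

namespace Pool.Agent.HL54

variable {I : Type u}

/-- membership in the class `K_G`: for all `a, b` and every set `F` all of whose tuples are
active for `a` (first sense) and for `b` (second sense), the colouring `l ↦ col (a :: b :: l)` is
a `G`-structure on `F` -/
def KMem (G : UClass (I → Bool)) (M : Type u) [(lang I).Structure M] : Prop :=
  ∀ (a b : M) (F : Set M),
    (∀ l : List M, (∀ y ∈ l, y ∈ F) → act (I := I) M false (a :: l) ∧ act (I := I) M true (b :: l)) →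
    G.mem F (fun l => col (I := I) M (a :: b :: l.map Subtype.val))

theorem map_unattach {M : Type u} {F : Set M} (l : List M) (h : ∀ y ∈ l, y ∈ F) :
    ∃ l' : List F, l'.map Subtype.val = l := by
  refine ⟨l.attach.map (fun y => ⟨y.1, h y.1 y.2⟩), ?_⟩
  rw [List.map_map]
  exact List.attach_map_subtype_val l

theorem KMem.of_emb {G : UClass (I → Bool)} {M N : Type u} [(lang I).Structure M]
    [(lang I).Structure N] (f : M ↪[lang I] N) (h : KMem G N) : KMem G M := by
  intro a b F hF
  have h1 := h (f a) (f b) (f '' F) (by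
    intro l hl
    have : ∃ l' : List M, (∀ y ∈ l', y ∈ F) ∧ l'.map f = l := by
      induction l with
      | nil => exact ⟨[], by simp, rfl⟩
      | cons z l ih =>
        obtain ⟨l', h1, h2⟩ := ih (fun y hy => hl y (List.mem_cons_of_mem _ hy))
        obtain ⟨w, hw, hz⟩ := hl z (List.mem_cons_self)
        refine ⟨w :: l', ?_, ?_⟩
        · intro y hy
          rcases List.mem_cons.1 hy with h | h
          · rw [h]; exact hw
          · exact h1 y h
        · rw [List.map_cons, hz, h2]
    obtain ⟨l', h1, h2⟩ := this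
    subst h2
    have h3 := hF l' h1
    rw [← List.map_cons, ← List.map_cons, act_map, act_map]
    exact h3)
  have h2 := G.comap (Y := F) (Z := (f '' F : Set N)) (fun y => ⟨f y.1, ⟨y.1, y.2, rfl⟩⟩)
    (fun x y hxy => Subtype.ext (f.injective (congrArg Subtype.val hxy))) _ h1
  convert h2 using 2 with l
  rw [← col_map f]
  simp [List.map_map, Function.comp_def]

/-- `K_G` is determined by finite subsets, so by any directed cover -/
theorem KMem.of_chain {G : UClass (I → Bool)} {M : Type u} [(lang I).Structure M] {ι : Type u}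
    [LinearOrder ι] [Nonempty ι] (S : ι → (lang I).Substructure M)
    (hmono : ∀ i j, i ≤ j → S i ≤ S j) (hmem : ∀ i, KMem G (S i)) (hcov : ∀ x : M, ∃ i, x ∈ S i) :
    KMem G M := by
  intro a b F hF
  apply G.loc
  intro E
  classical
  have hfin : ∀ E' : Finset M, ∃ i, ∀ x ∈ E', x ∈ S i := by
    intro E'
    induction E' using Finset.induction_on with
    | empty => exact ⟨Classical.arbitrary ι, by simp⟩
    | insert x E' hx ih =>
      obtain ⟨i, hi⟩ := ih
      obtain ⟨j, hj⟩ := hcov x
      refine ⟨max i j, ?_⟩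
      intro y hy
      rcases Finset.mem_insert.1 hy with h | h
      · rw [h]; exact hmono j _ (le_max_right i j) hj
      · exact hmono i _ (le_max_left i j) (hi y h)
  obtain ⟨i, hi⟩ := hfin (insert a (insert b (E.image Subtype.val)))
  have ha : a ∈ S i := hi a (by simp)
  have hb : b ∈ S i := hi b (by simp)
  have hE : ∀ y ∈ E, (y : M) ∈ S i := fun y hy => hi y
    (Finset.mem_insert_of_mem (Finset.mem_insert_of_mem (Finset.mem_image_of_mem _ hy)))
  let F' : Set (S i) := {y | y.1 ∈ F}
  have h1 := hmem i ⟨a, ha⟩ ⟨b, hb⟩ F' (by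
    intro l hl
    have h2 := hF (l.map (S i).subtype) (by
      intro y hy
      obtain ⟨w, hw, rfl⟩ := List.mem_map.1 hy
      exact hl w hw)
    have h3 : a :: l.map (S i).subtype = ((⟨a, ha⟩ : S i) :: l).map (S i).subtype := rfl
    have h4 : b :: l.map (S i).subtype = ((⟨b, hb⟩ : S i) :: l).map (S i).subtype := rfl
    rw [h3, h4, act_map, act_map] at h2
    exact h2)
  have h2 := G.comap (Y := {y // y ∈ E}) (Z := F')
    (fun y => ⟨⟨y.1.1, hE y.1 y.2⟩, y.1.2⟩)
    (fun x y hxy => Subtype.ext (Subtype.ext (congrArg (fun w => w.1.1) hxy))) _ h1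
  convert h2 using 2 with l
  rw [← col_map (S i).subtype]
  simp [List.map_map, Function.comp_def]

end Pool.Agent.HL54
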