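import Mathlib

set_option autoImplicit false

open FirstOrder Cardinal

universe u

namespace Pool.Agent.HL54

/-- An abstract elementary class `(K, ≤_K)` in the language `L`. `mem M` says that the
`L`-structure `M` is in `K`; `le M S` says that the substructure `S` of `M` satisfies
`S ≤_K M`. If `T ≤ S` are substructures of `M`, then `T.comap S.subtype.toHom` is `T`, seen as a
substructure of the structure `S`. -/
structure AEC (L : FirstOrder.Language.{u, u}) where
  /-- the class `K` -/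
  mem : ∀ (M : Type u) [L.Structure M], Prop
  /-- `le M S` means `S ≤_K M` -/
  le : ∀ (M : Type u) [L.Structure M], L.Substructure M → Prop
  /-- `≤_K` is a relation between members of `K` -/
  mem_of_le : ∀ (M : Type u) [L.Structure M] (S : L.Substructure M), le M S → mem M ∧ mem S
  /-- `K` is closed under isomorphism -/
  mem_iso : ∀ (M N : Type u) [L.Structure M] [L.Structure N], (M ≃[L] N) → mem M → mem N
  /-- `≤_K` is invariant under isomorphism -/
  le_iso : ∀ (M N : Type u) [L.Structure M] [L.Structure N] (e : M ≃[L] N)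
    (S : L.Substructure M), le M S → le N (S.map e.toHom)
  /-- reflexivity -/
  le_refl : ∀ (M : Type u) [L.Structure M], mem M → le M ⊤
  /-- transitivity: `T ≤_K S ≤_K M` implies `T ≤_K M` -/
  le_trans : ∀ (M : Type u) [L.Structure M] (S T : L.Substructure M), T ≤ S →
    le S (T.comap S.subtype.toHom) → le M S → le M T
  /-- coherence: `T ⊆ S ≤_K M` and `T ≤_K M` imply `T ≤_K S` -/
  coherence : ∀ (M : Type u) [L.Structure M] (S T : L.Substructure M), T ≤ S →
    le M S → le M T → le S (T.comap S.subtype.toHom)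
  /-- the union of a `≤_K`-increasing continuous chain is in `K` and is a `≤_K`-extension of
  each member -/
  chain : ∀ (M : Type u) [L.Structure M] (ι : Type u) [LinearOrder ι] [WellFoundedLT ι]
    [Nonempty ι] (S : ι → L.Substructure M),
    (∀ i j, i ≤ j → S i ≤ S j ∧ le (S j) ((S i).comap (S j).subtype.toHom)) →
    (∀ i, Order.IsSuccLimit i → (S i : Set M) = ⋃ j ∈ Set.Iio i, (S j : Set M)) →
    (∀ x : M, ∃ i, x ∈ S i) → mem M ∧ ∀ i, le M (S i)
  /-- the union of a `≤_K`-increasing continuous chain is `≤_K`-below every common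
  `≤_K`-upper bound -/
  smooth : ∀ (M : Type u) [L.Structure M] (ι : Type u) [LinearOrder ι] [WellFoundedLT ι]
    [Nonempty ι] (S : ι → L.Substructure M),
    (∀ i j, i ≤ j → S i ≤ S j ∧ le (S j) ((S i).comap (S j).subtype.toHom)) →
    (∀ i, Order.IsSuccLimit i → (S i : Set M) = ⋃ j ∈ Set.Iio i, (S j : Set M)) →
    (∀ i, le M (S i)) → ∀ T : L.Substructure M, (T : Set M) = ⋃ i, (S i : Set M) → le M T
  /-- the Löwenheim–Skolem property -/
  exists_ls : ∃ μ : Cardinal.{u}, ∀ (M : Type u) [L.Structure M], mem M → ∀ A : Set M,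
    ∃ S : L.Substructure M, A ⊆ (S : Set M) ∧ le M S ∧ #S ≤ #A + μ

variable {L : FirstOrder.Language.{u, u}}

/-- The Löwenheim–Skolem number: the least infinite cardinal `μ ≥ |L|` such that for every
`M ∈ K` and every `A ⊆ M` there is `N ≤_K M` with `A ⊆ N` and `|N| ≤ |A| + μ`. -/
noncomputable def AEC.LS (K : AEC L) : Cardinal.{u} :=
  sInf {μ : Cardinal.{u} | ℵ₀ ≤ μ ∧ L.card ≤ μ ∧
    ∀ (M : Type u) [L.Structure M], K.mem M → ∀ A : Set M,
      ∃ S : L.Substructure M, A ⊆ (S : Set M) ∧ K.le M S ∧ #S ≤ #A + μ}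

/-- `f : M → N` is a `≤_K`-embedding: an isomorphism of `M` onto some `S ≤_K N`. -/
def AEC.IsEmb (K : AEC L) {M N : Type u} [L.Structure M] [L.Structure N] (f : M ↪[L] N) : Prop :=
  K.le N f.toHom.range

/-- The amalgamation property in `θ`: whenever `M₀, M₁, M₂ ∈ K` have cardinality `θ` and
`g₁ : M₀ → M₁`, `g₂ : M₀ → M₂` are `≤_K`-embeddings, there are `N ∈ K` and `≤_K`-embeddings
`f₁ : M₁ → N`, `f₂ : M₂ → N` with `f₁ ∘ g₁ = f₂ ∘ g₂`. -/
def AEC.AP (K : AEC L) (θ : Cardinal.{u}) : Prop :=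
  ∀ (M₀ M₁ M₂ : Type u) [L.Structure M₀] [L.Structure M₁] [L.Structure M₂],
    #M₀ = θ → #M₁ = θ → #M₂ = θ → ∀ (g₁ : M₀ ↪[L] M₁) (g₂ : M₀ ↪[L] M₂),
    K.IsEmb g₁ → K.IsEmb g₂ →
    ∃ (N : Type u) (_ : L.Structure N) (f₁ : M₁ ↪[L] N) (f₂ : M₂ ↪[L] N),
      K.IsEmb f₁ ∧ K.IsEmb f₂ ∧ ∀ x : M₀, f₁ (g₁ x) = f₂ (g₂ x)

end Pool.Agent.HL54
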