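import Pool.Agent.HL54.Amalg

set_option autoImplicit false

open FirstOrder Cardinal

universe u

namespace Pool.Agent.HL54

variable {I : Type u}

/-- the AEC `K_G`; `≤_K` is the substructure relation -/
def KG (G : UClass (I → Bool)) : AEC (lang I) where
  mem := fun M _ => KMem G M
  le := fun M _ _ => KMem G M
  mem_of_le := by
    intro M _ S h
    exact ⟨h, h.of_emb S.subtype⟩
  mem_iso := by
    intro M N _ _ e h
    exact h.of_emb e.symm.toEmbedding
  le_iso := by
    intro M N _ _ e S h
    exact h.of_emb e.symm.toEmbedding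
  le_refl := by
    intro M _ h
    exact h
  le_trans := by
    intro M _ S T _ _ h
    exact h
  coherence := by
    intro M _ S T _ h _
    exact h.of_emb S.subtype
  chain := by
    intro M _ ι _ _ _ S h1 h2 h3
    have h4 : KMem G M := KMem.of_chain S (fun i j hij => (h1 i j hij).1)
      (fun i => (h1 i i le_rfl).2) h3
    exact ⟨h4, fun _ => h4⟩
  smooth := by
    intro M _ ι _ _ _ S _ _ h3 T _
    exact h3 (Classical.arbitrary ι)
  exists_ls := by
    refine ⟨0, ?_⟩
    intro M _ hM A
    refine ⟨⟨A, fun f => PEmpty.elim f⟩, le_rfl, hM, ?_⟩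
    rw [add_zero]
    exact le_rfl

theorem KG_LS (G : UClass (I → Bool)) {κ : Cardinal.{u}} (hκ : ℵ₀ ≤ κ) (hI : #I = κ) :
    (KG G).LS ≤ κ := by
  apply csInf_le'
  refine ⟨hκ, card_lang I hκ hI, ?_⟩
  intro M _ hM A
  refine ⟨⟨A, fun f => PEmpty.elim f⟩, le_rfl, hM, ?_⟩
  exact le_self_add

theorem KG_AP (G : UClass (I → Bool)) {μ θ : Cardinal.{u}} (hθ : θ ≤ μ) (Y : Type u)
    (t : List Y → I → Bool) (hY : #Y = μ) (ht : G.mem Y t) : (KG G).AP θ := by
  intro M₀ M₁ M₂ _ _ _ h0 h1 h2 g₁ g₂ e₁ e₂
  have h3 : #M₀ ≤ #Y := by rw [h0, hY]; exact hθ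
  obtain ⟨e⟩ := (Cardinal.le_def M₀ Y).1 h3
  obtain ⟨N, str, f₁, f₂, hN, hc⟩ := KMem.amalgam (G := G) g₁ g₂ e₁ e₂
    (fun l => t (l.map e)) (G.comap e e.injective t ht)
  exact ⟨N, str, f₁, f₂, hN, hN, hc⟩

/-- `Y` with one new point; in `Opt true Y` and `Opt false Y` the new point is active for all
tuples of `Y` in one of the two senses -/
def Opt (_e : Bool) (Y : Type u) : Type u := Option Y

/-- `Y` without active tuples -/
def Bot (Y : Type u) : Type u := Y

instance optStr (e : Bool) (Y : Type u) : (lang I).Structure (Opt e Y) :=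
  mkStr (M := Opt e Y) (fun b l => b = e ∧ ∃ l' : List Y, l = (none : Option Y) :: l'.map some)
    (fun _ _ => false)

instance botStr (Y : Type u) : (lang I).Structure (Bot Y) :=
  mkStr (M := Bot Y) (fun _ _ => False) (fun _ _ => false)

theorem act_opt (e : Bool) (Y : Type u) (b : Bool) (l : List (Opt e Y)) :
    act (I := I) (Opt e Y) b l ↔
      (b = e ∧ ∃ l' : List Y, l = (none : Option Y) :: l'.map some) :=
  act_mkStr _ _ b l

theorem act_bot (Y : Type u) (b : Bool) (l : List (Bot Y)) : ¬ act (I := I) (Bot Y) b l :=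
  fun h => (act_mkStr (M := Bot Y) (fun _ _ => False) (fun _ _ => false) b l).1 h

theorem col_opt (e : Bool) (Y : Type u) (l : List (Opt e Y)) :
    col (I := I) (Opt e Y) l = fun _ => false :=
  col_mkStr _ _ l

theorem col_bot (Y : Type u) (l : List (Bot Y)) : col (I := I) (Bot Y) l = fun _ => false :=
  col_mkStr _ _ l

/-- the inclusion -/
def optEmb (e : Bool) (Y : Type u) : Bot Y ↪[lang I] Opt e Y :=
  mkEmb (M := Bot Y) (N := Opt e Y) (fun y : Y => (some y : Option Y))
    (fun _ _ h => Option.some.inj h)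
    (fun b l => by
      constructor
      · intro h
        obtain ⟨_, l', hl⟩ := (act_opt e Y b _).1 h
        cases l with
        | nil => exact absurd hl (List.cons_ne_nil _ _).symm
        | cons a l =>
          have h1 := (List.cons.inj hl).1
          exact absurd h1 (Option.some_ne_none (α := Y) a)
      · intro h
        exact absurd h (act_bot Y b l))
    (fun l => by rw [col_opt, col_bot])

theorem KMem_opt (G : UClass (I → Bool)) (e : Bool) (Y : Type u) : KMem G (Opt e Y) := by
  intro a b F hF
  obtain ⟨h1, h2⟩ := hF [] (by simp)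
  have h3 := ((act_opt e Y _ _).1 h1).1
  have h4 := ((act_opt e Y _ _).1 h2).1
  exact absurd (h3.trans h4.symm) (by simp)

theorem KG_mem_bot (G : UClass (I → Bool)) (Y : Type u) : (KG G).mem (Bot Y) := by
  intro a b F hF
  exact absurd (hF [] (by simp)).1 (act_bot Y _ _)

theorem KG_not_AP (G : UClass (I → Bool)) {μ θ : Cardinal.{u}} (hμ : ℵ₀ ≤ μ) (hθ : μ < θ)
    (hb : ∀ (Y : Type u) (t : List Y → I → Bool), G.mem Y t → #Y ≤ μ) : ¬ (KG G).AP θ := by
  intro hAP
  induction θ using Cardinal.inductionOn with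
  | _ Y =>
    have hY : ∀ e, #(Opt e Y) = #Y := by
      intro e
      show #(Option Y) = #Y
      rw [Cardinal.mk_option]
      exact Cardinal.add_one_eq (hμ.trans hθ.le)
    obtain ⟨N, str, f₁, f₂, hN, _, hc⟩ := hAP (Bot Y) (Opt false Y) (Opt true Y) rfl (hY _) (hY _)
      (optEmb false Y) (optEmb true Y) (KMem_opt G false Y) (KMem_opt G true Y)
    let j : Y → N := fun y => f₁ (optEmb (I := I) false Y y)
    have hj : Function.Injective j := f₁.injective.comp (optEmb (I := I) false Y).injective
    have hj2 : ∀ y, j y = f₂ (optEmb (I := I) true Y y) := hc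
    have hN' : KMem G N := hN
    have h1 := hN' (f₁ (none : Option Y)) (f₂ (none : Option Y)) (Set.range j) (by
      intro l hl
      obtain ⟨l', rfl⟩ := exists_lift_list j l hl
      constructor
      · have h2 : f₁ (none : Option Y) :: l'.map j =
            ((none : Option Y) :: l'.map (optEmb (I := I) false Y) : List (Opt false Y)).map f₁ := by
          rw [List.map_cons, List.map_map]
          rfl
        rw [h2, act_map, act_opt]
        exact ⟨rfl, l', rfl⟩
      · have h2 : f₂ (none : Option Y) :: l'.map j =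
            ((none : Option Y) :: l'.map (optEmb (I := I) true Y) : List (Opt true Y)).map f₂ := by
          rw [List.map_cons, List.map_map]
          congr 1
          exact List.map_congr_left (fun y _ => hj2 y)
        rw [h2, act_map, act_opt]
        exact ⟨rfl, l', rfl⟩)
    have h2 := hb _ _ h1
    rw [Cardinal.mk_range_eq j hj] at h2
    exact absurd hθ (not_lt.2 h2)

end Pool.Agent.HL54
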