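import Mathlib

set_option autoImplicit false

open Cardinal

universe u

namespace Pool.Agent.HL54

/-- A class of structures `t : List Y → C` (a colouring of all finite tuples of `Y` with
colours in `C`), closed under injective pullback (so under isomorphism and substructures)
and determined by its finite substructures. -/
structure UClass (C : Type u) where
  mem : ∀ (Y : Type u), (List Y → C) → Prop
  comap : ∀ {Y Z : Type u} (f : Y → Z), Function.Injective f → ∀ t : List Z → C,
    mem Z t → mem Y (fun l => t (l.map f))
  loc : ∀ {Y : Type u} (t : List Y → C),
    (∀ F : Finset Y, mem {y // y ∈ F} (fun l => t (l.map Subtype.val))) → mem Y t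

/-- `Char C μ`: some class of `C`-coloured structures has a member on a set of size `μ` and
none on a larger set. -/
def Char (C : Type u) (μ : Cardinal.{u}) : Prop :=
  ∃ G : UClass C, (∃ (Y : Type u) (t : List Y → C), #Y = μ ∧ G.mem Y t) ∧
    ∀ (Y : Type u) (t : List Y → C), G.mem Y t → #Y ≤ μ

end Pool.Agent.HL54
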