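import Pool.Agent.HL54.Defs
import Pool.Agent.HL54.UClass

set_option autoImplicit false

open FirstOrder Cardinal

universe u

namespace Pool.Agent.HL54

/-- the relational language with, in each arity, two 'active' relations and relations coding
colours in `I → Bool` -/
def lang (I : Type u) : FirstOrder.Language.{u, u} where
  Functions := fun _ => PEmpty
  Relations := fun _ => Bool ⊕ I

variable {I : Type u}

/-- the structure given by two sets of 'active' tuples and a colouring of the tuples -/
@[instance_reducible]
def mkStr {M : Type u} (A : Bool → List M → Prop) (c : List M → I → Bool) :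
    (lang I).Structure M where
  funMap := fun f => PEmpty.elim f
  RelMap := fun {n} r v => match r with
    | Sum.inl b => A b (List.ofFn (n := n) v)
    | Sum.inr i => c (List.ofFn (n := n) v) i = true

/-- the active tuples of a structure -/
def act (M : Type u) [(lang I).Structure M] (b : Bool) (l : List M) : Prop :=
  FirstOrder.Language.Structure.RelMap (L := lang I) (n := l.length) (Sum.inl b : Bool ⊕ I) l.get

open Classical in
/-- the colouring of the tuples of a structure -/
noncomputable def col (M : Type u) [(lang I).Structure M] (l : List M) : I → Bool :=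
  fun i => decide (FirstOrder.Language.Structure.RelMap (L := lang I) (n := l.length)
    (Sum.inr i : Bool ⊕ I) l.get)

theorem col_eq_true {M : Type u} [(lang I).Structure M] (l : List M) (i : I) :
    col (I := I) M l i = true ↔ FirstOrder.Language.Structure.RelMap (L := lang I)
      (n := l.length) (Sum.inr i : Bool ⊕ I) l.get := by
  simp [col]

theorem relMap_cast {M : Type u} [(lang I).Structure M] {n m : ℕ} (h : m = n) (r : Bool ⊕ I)
    (v : Fin n → M) :
    FirstOrder.Language.Structure.RelMap (L := lang I) (n := m) r (fun i => v (Fin.cast h i)) ↔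
      FirstOrder.Language.Structure.RelMap (L := lang I) (n := n) r v := by
  subst h
  rfl

theorem relMap_get_ofFn {M : Type u} [(lang I).Structure M] {n : ℕ} (r : Bool ⊕ I)
    (v : Fin n → M) :
    FirstOrder.Language.Structure.RelMap (L := lang I) (n := (List.ofFn v).length) r (List.ofFn v).get ↔
      FirstOrder.Language.Structure.RelMap (L := lang I) (n := n) r v := by
  have h : (List.ofFn v).length = n := List.length_ofFn
  rw [← relMap_cast h r v]
  have : (List.ofFn v).get = fun i => v (Fin.cast h i) := by
    funext i
    simp
    rfl
  rw [this]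

theorem act_ofFn {M : Type u} [(lang I).Structure M] {n : ℕ} (b : Bool) (v : Fin n → M) :
    act (I := I) M b (List.ofFn v) ↔
      FirstOrder.Language.Structure.RelMap (L := lang I) (n := n) (Sum.inl b : Bool ⊕ I) v :=
  relMap_get_ofFn _ v

theorem col_ofFn {M : Type u} [(lang I).Structure M] {n : ℕ} (i : I) (v : Fin n → M) :
    col (I := I) M (List.ofFn v) i = true ↔
      FirstOrder.Language.Structure.RelMap (L := lang I) (n := n) (Sum.inr i : Bool ⊕ I) v := by
  rw [col_eq_true]
  exact relMap_get_ofFn _ v

theorem act_mkStr {M : Type u} (A : Bool → List M → Prop) (c : List M → I → Bool) (b : Bool)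
    (l : List M) : @act I M (mkStr A c) b l ↔ A b l := by
  show A b (List.ofFn l.get) ↔ A b l
  rw [List.ofFn_get]

theorem col_mkStr {M : Type u} (A : Bool → List M → Prop) (c : List M → I → Bool)
    (l : List M) : @col I M (mkStr A c) l = c l := by
  funext i
  have h : (@col I M (mkStr A c) l i = true) ↔ (c l i = true) := by
    rw [@col_eq_true I M (mkStr A c)]
    show c (List.ofFn l.get) i = true ↔ c l i = true
    rw [List.ofFn_get]
  exact Bool.eq_iff_iff.2 h

theorem act_map {M N : Type u} [(lang I).Structure M] [(lang I).Structure N]
    (f : M ↪[lang I] N) (b : Bool) (l : List M) : act (I := I) N b (l.map f) ↔ act (I := I) M b l := by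
  conv_lhs => rw [← List.ofFn_get l, List.map_ofFn]
  rw [act_ofFn, f.map_rel]
  rfl

theorem col_map {M N : Type u} [(lang I).Structure M] [(lang I).Structure N]
    (f : M ↪[lang I] N) (l : List M) : col (I := I) N (l.map f) = col (I := I) M l := by
  funext i
  have h : (col (I := I) N (l.map f) i = true) ↔ (col (I := I) M l i = true) := by
    conv_lhs => rw [← List.ofFn_get l, List.map_ofFn]
    rw [col_ofFn, f.map_rel, col_eq_true]
  exact Bool.eq_iff_iff.2 h

/-- an embedding from data -/
def mkEmb {M N : Type u} [(lang I).Structure M] [(lang I).Structure N] (f : M → N)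
    (hf : Function.Injective f) (ha : ∀ b l, act (I := I) N b (l.map f) ↔ act (I := I) M b l)
    (hc : ∀ l, col (I := I) N (l.map f) = col (I := I) M l) : M ↪[lang I] N where
  toFun := f
  inj' := hf
  map_fun' := fun g _ => PEmpty.elim g
  map_rel' := by
    intro n r x
    rcases r with b | i
    · have h := ha b (List.ofFn x)
      rw [List.map_ofFn, act_ofFn, act_ofFn] at h
      exact h
    · have h := congrFun (hc (List.ofFn x)) i
      rw [List.map_ofFn] at h
      have h2 := Bool.eq_iff_iff.1 h
      rw [col_ofFn, col_ofFn] at h2
      exact h2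

theorem card_lang (I : Type u) {κ : Cardinal.{u}} (hκ : ℵ₀ ≤ κ) (hI : #I = κ) :
    (lang I).card ≤ κ := by
  rw [FirstOrder.Language.card_eq_card_functions_add_card_relations]
  have h1 : (Cardinal.sum fun l => Cardinal.lift.{u} #((lang I).Functions l)) = 0 := by
    have : ∀ l, #((lang I).Functions l) = 0 := fun l => by
      show #PEmpty = 0
      simp
    simp [this]
  have h2 : (Cardinal.sum fun l => Cardinal.lift.{u} #((lang I).Relations l)) ≤ κ := by
    have h3 : ∀ l, #((lang I).Relations l) = κ := fun l => by
      show #(Bool ⊕ I) = κ
      rw [Cardinal.mk_sum, hI]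
      simp only [Cardinal.mk_fintype, Fintype.card_bool, Nat.cast_ofNat, Cardinal.lift_ofNat,
        Cardinal.lift_id]
      have h4 : (2 : Cardinal.{u}) ≤ κ := le_trans (Cardinal.natCast_lt_aleph0 (n := 2)).le hκ
      rw [Cardinal.lift_uzero]
      exact Cardinal.add_eq_right hκ h4
    simp only [h3]
    rw [Cardinal.sum_const]
    simp only [Cardinal.lift_id, Cardinal.mk_nat, Cardinal.lift_aleph0, Cardinal.lift_lift]
    rw [Cardinal.aleph0_mul_eq]
    · simp
    · simpa using hκ
  rw [h1, zero_add]
  exact h2

end Pool.Agent.HL54
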