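import Pool.Agent.HL54.UClass

set_option autoImplicit false

open Cardinal

universe u

namespace Pool.Agent.HL54

/-- `[(a,b),(c,d),...] ↦ [a,b,c,d,...]` -/
def flat {X : Type u} (l : List (X × X)) : List X := l.flatMap (fun p => [p.1, p.2])

/-- inverse of `flat` -/
def unflat {X : Type u} : List X → List (X × X)
  | a :: b :: l => (a, b) :: unflat l
  | _ => []

theorem unflat_flat {X : Type u} (l : List (X × X)) : unflat (flat l) = l := by
  induction l with
  | nil => rfl
  | cons p l ih =>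
    have : flat (p :: l) = p.1 :: p.2 :: flat l := rfl
    rw [this, unflat, ih]

theorem flat_map {X Z : Type u} (f : X → Z) (l : List (X × X)) :
    flat (l.map (Prod.map f f)) = (flat l).map f := by
  induction l with
  | nil => rfl
  | cons p l ih =>
    have h1 : flat (p :: l) = p.1 :: p.2 :: flat l := rfl
    have h2 : flat ((p :: l).map (Prod.map f f)) =
        f p.1 :: f p.2 :: flat (l.map (Prod.map f f)) := rfl
    rw [h1, h2, ih]
    rfl

section pow

variable {C : Type u}

/-- different elements are separated by the bit of their pair -/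
def sepA (X : Type u) (t : List X → Bool × C) : Prop :=
  ∀ x y : X, x ≠ y → (t [x, x, y]).1 ≠ (t [y, x, y]).1

/-- equivalent pairs have the same bits -/
def eqB (X : Type u) (t : List X → Bool × C) : Prop :=
  ∀ p q : X × X, (t [p.1, p.2, q.1, q.2]).1 = true →
    ∀ x, (t [x, p.1, p.2]).1 = (t [x, q.1, q.2]).1

/-- a set of off-diagonal pairwise inequivalent pairs -/
def Free {X : Type u} (t : List X → Bool × C) (F : Set (X × X)) : Prop :=
  (∀ p ∈ F, p.1 ≠ p.2) ∧ ∀ p ∈ F, ∀ q ∈ F, p ≠ q → (t [p.1, p.2, q.1, q.2]).1 = false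

/-- free sets of pairs carry a `G`-structure -/
def freeC (G : UClass C) (X : Type u) (t : List X → Bool × C) : Prop :=
  ∀ F : Set (X × X), Free t F → G.mem F (fun l => (t (flat (l.map Subtype.val))).2)

theorem freeC_comap (G : UClass C) {Y Z : Type u} (f : Y → Z) (hf : Function.Injective f)
    (t : List Z → Bool × C) (h : freeC G Z t) : freeC G Y (fun l => t (l.map f)) := by
  intro F hF
  have hF' : Free t (Prod.map f f '' F) := by
    refine ⟨?_, ?_⟩
    · rintro _ ⟨p, hp, rfl⟩ he
      exact hF.1 p hp (hf he)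
    · rintro _ ⟨p, hp, rfl⟩ _ ⟨q, hq, rfl⟩ hne
      exact hF.2 p hp q hq (fun h => hne (by rw [h]))
  have h1 := G.comap (fun p : F => (⟨Prod.map f f p.1, p.1, p.2, rfl⟩ :
    (Prod.map f f '' F : Set (Z × Z)))) (by
      rintro ⟨p, hp⟩ ⟨q, hq⟩ hpq
      simp only [Subtype.mk.injEq] at hpq
      exact Subtype.ext (hf.prodMap hf hpq)) _ (h _ hF')
  have h2 : (fun l : List F => (t (flat ((l.map (fun p : F =>
      (⟨Prod.map f f p.1, p.1, p.2, rfl⟩ : (Prod.map f f '' F : Set (Z × Z))))).map
        Subtype.val))).2) =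
      fun l : List F => (t ((flat (l.map Subtype.val)).map f)).2 := by
    funext l
    rw [← flat_map, List.map_map, List.map_map]
    rfl
  rw [h2] at h1
  exact h1

theorem freeC_loc (G : UClass C) {Y : Type u} (t : List Y → Bool × C)
    (h : ∀ F : Finset Y, freeC G {y // y ∈ F} (fun l => t (l.map Subtype.val))) :
    freeC G Y t := by
  classical
  intro F hF
  apply G.loc
  intro F₁
  set F₀ : Finset Y := F₁.image (fun p => p.1.1) ∪ F₁.image (fun p => p.1.2) with hF₀
  have hm1 : ∀ p ∈ F₁, p.1.1 ∈ F₀ := fun p hp => by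
    rw [hF₀, Finset.mem_union]
    exact Or.inl (Finset.mem_image.2 ⟨p, hp, rfl⟩)
  have hm2 : ∀ p ∈ F₁, p.1.2 ∈ F₀ := fun p hp => by
    rw [hF₀, Finset.mem_union]
    exact Or.inr (Finset.mem_image.2 ⟨p, hp, rfl⟩)
  set F' : Set ({y // y ∈ F₀} × {y // y ∈ F₀}) := {p | (p.1.1, p.2.1) ∈ F} with hF'
  have hfree : Free (fun l : List {y // y ∈ F₀} => t (l.map Subtype.val)) F' := by
    refine ⟨?_, ?_⟩
    · intro p hp he
      exact hF.1 _ hp (congrArg Subtype.val he)
    · intro p hp q hq hne
      refine hF.2 _ hp _ hq ?_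
      intro he
      rw [Prod.mk.injEq] at he
      exact hne (Prod.ext (Subtype.ext he.1) (Subtype.ext he.2))
  have h1 := G.comap (fun p : {y // y ∈ F₁} =>
    (⟨(⟨p.1.1.1, hm1 _ p.2⟩, ⟨p.1.1.2, hm2 _ p.2⟩), p.1.2⟩ : F')) (by
      rintro ⟨⟨⟨a, b⟩, hp⟩, hp'⟩ ⟨⟨⟨c, d⟩, hq⟩, hq'⟩ hpq
      simp only [Subtype.mk.injEq, Prod.mk.injEq] at hpq ⊢
      exact hpq) _ (h F₀ F' hfree)
  have h2 : (fun l : List {y // y ∈ F₁} => (t ((flat ((l.map (fun p : {y // y ∈ F₁} =>
      (⟨(⟨p.1.1.1, hm1 _ p.2⟩, ⟨p.1.1.2, hm2 _ p.2⟩), p.1.2⟩ : F'))).map Subtype.val)).map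
        Subtype.val)).2) =
      fun l : List {y // y ∈ F₁} => (t (flat ((l.map Subtype.val).map Subtype.val))).2 := by
    funext l
    rw [← flat_map, List.map_map, List.map_map, List.map_map]
    rfl
  rw [h2] at h1
  exact h1

/-- the class for `2 ^ μ` -/
def powClass (G : UClass C) : UClass (Bool × C) where
  mem X t := sepA X t ∧ eqB X t ∧ freeC G X t
  comap {Y Z} f hf t h := by
    refine ⟨?_, ?_, freeC_comap G f hf t h.2.2⟩
    · intro x y hxy
      exact h.1 (f x) (f y) (fun he => hxy (hf he))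
    · intro p q hpq x
      exact h.2.1 (Prod.map f f p) (Prod.map f f q) hpq (f x)
  loc {Y} t h := by
    classical
    refine ⟨?_, ?_, freeC_loc G t (fun F => (h F).2.2)⟩
    · intro x y hxy
      have h1 := (h {x, y}).1 ⟨x, by simp⟩ ⟨y, by simp⟩ (fun he => hxy (congrArg Subtype.val he))
      exact h1
    · rintro ⟨a, b⟩ ⟨c, d⟩ hpq x
      have h1 := (h {a, b, c, d, x}).2.1 (⟨a, by simp⟩, ⟨b, by simp⟩) (⟨c, by simp⟩, ⟨d, by simp⟩)
        hpq ⟨x, by simp⟩
      exact h1

theorem powClass_le (G : UClass C) {μ : Cardinal.{u}}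
    (hG : ∀ (Y : Type u) (t : List Y → C), G.mem Y t → #Y ≤ μ) (X : Type u)
    (t : List X → Bool × C) (h : (powClass G).mem X t) : #X ≤ 2 ^ μ := by
  obtain ⟨hA, hB, hC⟩ := h
  obtain ⟨F, hF⟩ : ∃ F : Set (X × X), Maximal (Free t) F := by
    refine zorn_subset {F | Free t F} ?_
    intro c hc hch
    refine ⟨⋃₀ c, ⟨?_, ?_⟩, fun s hs => Set.subset_sUnion_of_mem hs⟩
    · rintro p ⟨s, hs, hp⟩
      exact (hc hs).1 p hp
    · rintro p ⟨s, hs, hp⟩ q ⟨s', hs', hq⟩ hne
      rcases hch.total hs hs' with hle | hle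
      · exact (hc hs').2 p (hle hp) q hq hne
      · exact (hc hs).2 p hp q (hle hq) hne
  have hFμ : #F ≤ μ := hG _ _ (hC F hF.prop)
  have hinj : Function.Injective (fun (x : X) (p : F) => (t [x, p.1.1, p.1.2]).1) := by
    intro x y hxy
    by_contra hne
    by_cases hp : (x, y) ∈ F
    · exact hA x y hne (congrFun hxy ⟨(x, y), hp⟩)
    · have hnot : ¬ Free t (insert (x, y) F) := by
        intro hfree
        exact hp (hF.le_of_ge hfree (Set.subset_insert _ _) (Set.mem_insert _ _))
      have hex : ∃ q ∈ F, (t [x, y, q.1, q.2]).1 = true ∨ (t [q.1, q.2, x, y]).1 = true := by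
        by_contra hcon
        push Not at hcon
        apply hnot
        refine ⟨?_, ?_⟩
        · rintro p (rfl | hp')
          · exact hne
          · exact hF.prop.1 p hp'
        · rintro p (rfl | hp') q (rfl | hq') hpq
          · exact absurd rfl hpq
          · simpa using (hcon q hq').1
          · simpa using (hcon p hp').2
          · exact hF.prop.2 p hp' q hq' hpq
      obtain ⟨q, hq, hE⟩ := hex
      have hbits : ∀ z, (t [z, x, y]).1 = (t [z, q.1, q.2]).1 := by
        rcases hE with hE | hE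
        · exact hB (x, y) q hE
        · exact fun z => (hB q (x, y) hE z).symm
      apply hA x y hne
      rw [hbits x, hbits y]
      exact congrFun hxy ⟨q, hq⟩
  calc #X ≤ #(F → Bool) := Cardinal.mk_le_of_injective hinj
    _ = 2 ^ #F := by simp
    _ ≤ 2 ^ μ := Cardinal.power_le_power_left two_ne_zero hFμ

/-- a coordinate where two different functions differ -/
noncomputable def dif {Y : Type u} [Nonempty Y] (p : (Y → Bool) × (Y → Bool)) : Y :=
  open Classical in if h : ∃ i, p.1 i ≠ p.2 i then h.choose else Classical.arbitrary Y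

theorem dif_spec {Y : Type u} [Nonempty Y] (x y : Y → Bool) (h : x ≠ y) :
    x (dif (x, y)) ≠ y (dif (x, y)) := by
  have h1 : ∃ i, x i ≠ y i := Function.ne_iff.1 h
  unfold dif
  rw [dif_pos h1]
  exact h1.choose_spec

/-- the bits of the large structure -/
noncomputable def bit {Y : Type u} [Nonempty Y] : List (Y → Bool) → Bool
  | [x, a, b] => x (dif (a, b))
  | [a, b, c, d] => open Classical in decide (dif (a, b) = dif (c, d))
  | _ => false

/-- the large structure -/
noncomputable def big {Y : Type u} [Nonempty Y] (t₀ : List Y → C) (l : List (Y → Bool)) :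
    Bool × C := (bit l, t₀ ((unflat l).map dif))

theorem big_mem (G : UClass C) {Y : Type u} [Nonempty Y] (t₀ : List Y → C) (h : G.mem Y t₀) :
    (powClass G).mem (Y → Bool) (big t₀) := by
  refine ⟨?_, ?_, ?_⟩
  · intro x y hxy
    exact dif_spec x y hxy
  · rintro ⟨a, b⟩ ⟨c, d⟩ hpq x
    have h1 : dif (a, b) = dif (c, d) := by simpa [big, bit] using hpq
    change x (dif (a, b)) = x (dif (c, d))
    rw [h1]
  · intro F hF
    have hinj : Function.Injective (fun p : F => dif p.1) := by
      rintro ⟨p, hp⟩ ⟨q, hq⟩ hpq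
      by_contra hne
      have h1 := hF.2 p hp q hq (fun he => hne (Subtype.ext he))
      have h2 : (big t₀ [p.1, p.2, q.1, q.2]).1 = true := by
        simpa [big, bit] using hpq
      rw [h1] at h2
      exact Bool.false_ne_true h2
    have h1 := G.comap (fun p : F => dif p.1) hinj t₀ h
    have h2 : (fun l : List F => t₀ (l.map (fun p : F => dif p.1))) =
        fun l : List F => (big t₀ (flat (l.map Subtype.val))).2 := by
      funext l
      unfold big
      rw [unflat_flat, List.map_map]
      rfl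
    rw [h2] at h1
    exact h1

end pow

/-- The class of `X` with bits `s(x,p) = (t [x,p.1,p.2]).1` (`p` a pair of distinct elements),
a relation `E p q :↔ (t [p.1,p.2,q.1,q.2]).1 = true` and on every `E`-free set of pairs a
`G`-structure. It has members of size at most `2 ^ μ`. -/
theorem Char.pow {C : Type u} {μ : Cardinal.{u}} (hμ : ℵ₀ ≤ μ) (h : Char C μ) :
    Char (Bool × C) (2 ^ μ) := by
  obtain ⟨G, ⟨Y, t₀, hY, ht⟩, hG⟩ := h
  have hne : Nonempty Y := by
    rw [← Cardinal.mk_ne_zero_iff, hY]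
    exact (Cardinal.aleph0_pos.trans_le hμ).ne'
  refine ⟨powClass G, ⟨Y → Bool, big t₀, ?_, big_mem G t₀ ht⟩, fun X t hX => powClass_le G hG X t hX⟩
  rw [← hY]
  simp

end Pool.Agent.HL54
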