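import Pool.Agent.HL54.SuccOp

set_option autoImplicit false

open Cardinal

universe u

namespace Pool.Agent.HL54

theorem exists_injOn {X Y : Type u} (S : Set X) (hY : Nonempty Y) (h : #S ≤ #Y) :
    ∃ g : X → Y, Set.InjOn g S := by
  classical
  obtain ⟨e⟩ := (Cardinal.le_def S Y).1 h
  refine ⟨fun x => if hx : x ∈ S then e ⟨x, hx⟩ else hY.some, ?_⟩
  intro a ha b hb hab
  simp only [ha, hb, dif_pos] at hab
  exact congrArg Subtype.val (e.injective hab)

/-- the colouring of tuples of a well-ordered set used for the successor step -/
noncomputable def succT {X Y C : Type u} [LinearOrder X] (g : X → X → Y) (t : List Y → C)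
    (c0 : C) : List X → Bool × C
  | [] => (false, c0)
  | x :: l => (match l with
      | [y] => decide (x < y)
      | _ => false, t (l.map (g x)))

theorem Char.succ {C : Type u} {μ : Cardinal.{u}} (hμ : ℵ₀ ≤ μ) (h : Char C μ) :
    Char (Bool × C) (Order.succ μ) := by
  have hC := h.nonempty
  obtain ⟨G, ⟨Y, t, hY, ht⟩, hb⟩ := h
  refine ⟨succClass G, ?_, ?_⟩
  · let X : Type u := (Order.succ μ).ord.ToType
    have hX : #X = Order.succ μ := by
      show #(Order.succ μ).ord.ToType = Order.succ μ
      simp
    have hYn : Nonempty Y := by
      rw [← Cardinal.mk_ne_zero_iff, hY]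
      intro h'
      rw [h'] at hμ
      exact absurd hμ (not_le.2 Cardinal.aleph0_pos)
    have hseg : ∀ x : X, #({y | y < x} : Set X) ≤ #Y := by
      intro x
      rw [hY]
      have h1 : #({y | y < x} : Set X) < Order.succ μ := by
        have := Cardinal.mk_Iio_toType_ord_lt x
        exact this
      exact Order.lt_succ_iff.1 h1
    choose g hg using fun x : X => exists_injOn ({y | y < x} : Set X) hYn (hseg x)
    refine ⟨X, succT g t hC.some, hX, ?_, ?_, ?_, ?_⟩
    · intro x
      simp [succT]
    · intro x y z
      simp only [succT, decide_eq_true_eq]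
      exact lt_trans
    · intro x y hxy
      simp only [succT, decide_eq_true_eq]
      exact lt_or_gt_of_ne hxy
    · intro x
      have hinj : Function.Injective
          (fun y : {y : X // (succT g t hC.some [y, x]).1 = true} => g x y.1) := by
        intro a b hab
        have ha : a.1 < x := by simpa [succT] using a.2
        have hb' : b.1 < x := by simpa [succT] using b.2
        exact Subtype.ext (hg x ha hb' hab)
      have := G.comap _ hinj t ht
      simpa [succT, List.map_map, Function.comp_def] using this
  · intro X s ⟨h1, h2, h3, h4⟩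
    exact le_succ_of_segments hμ (fun x y => (s [x, y]).1 = true) h3
      (fun x => hb _ _ (h4 x))

end Pool.Agent.HL54
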