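import Pool.Agent.HL54.Base

set_option autoImplicit false

open Cardinal

universe u

namespace Pool.Agent.HL54

/-- coloured disjoint sums -/
def sumClass {ι C : Type u} (G : ι → UClass C) : UClass (ι × C) where
  mem := fun X t => ∀ x : X, (G (t [x]).1).mem {y // (t [y]).1 = (t [x]).1}
    (fun l => (t (x :: l.map Subtype.val)).2)
  comap := by
    intro Y Z f hf t ht x
    have := (G (t [f x]).1).comap (Y := {y // (t ([y].map f)).1 = (t ([x].map f)).1})
      (Z := {y // (t [y]).1 = (t [f x]).1}) (fun y => ⟨f y.1, y.2⟩)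
      (fun a b hab => Subtype.ext (hf (congrArg Subtype.val hab))) _ (ht (f x))
    simpa [List.map_map, Function.comp_def] using this
  loc := by
    intro Y t hF x
    classical
    apply (G (t [x]).1).loc
    intro F
    let F' : Finset Y := insert x (F.image Subtype.val)
    have h4 := (hF F') ⟨x, by simp [F']⟩
    have := (G (t [x]).1).comap (Y := {y // y ∈ F})
      (Z := {y : {z // z ∈ F'} // (t ([y].map Subtype.val)).1 = (t [x]).1})
      (fun y => ⟨⟨y.1.1, by
        simp only [F', Finset.mem_insert, Finset.mem_image]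
        exact Or.inr ⟨y.1, y.2, rfl⟩⟩, y.1.2⟩)
      (fun a b hab => Subtype.ext (Subtype.ext (congrArg (fun w => w.1.1) hab))) _ h4
    simpa [List.map_map, Function.comp_def] using this

/-- the colouring of tuples of `Σ i, Y i` -/
noncomputable def sumT {ι C : Type u} {Y : ι → Type u} (g : ∀ i : ι, (Σ j, Y j) → Y i)
    (t : ∀ i, List (Y i) → C) (d0 : ι × C) : List (Σ j, Y j) → ι × C
  | [] => d0
  | x :: l => (x.1, t x.1 (l.map (g x.1)))

theorem Char.sum {ι C : Type u} (hι : Nonempty ι) (f : ι → Cardinal.{u}) (hf : ∀ i, ℵ₀ ≤ f i)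
    (h : ∀ i, Char C (f i)) : Char (ι × C) (Cardinal.sum f) := by
  classical
  have hC := (h hι.some).nonempty
  choose G hG hb using h
  choose Y t hY ht using hG
  have hYn : ∀ i, Nonempty (Y i) := by
    intro i
    rw [← Cardinal.mk_ne_zero_iff, hY]
    intro h'
    have := hf i
    rw [h'] at this
    exact absurd this (not_le.2 Cardinal.aleph0_pos)
  refine ⟨sumClass G, ?_, ?_⟩
  · let g : ∀ i : ι, (Σ j, Y j) → Y i := fun i p =>
      if hp : p.1 = i then hp ▸ p.2 else (hYn i).some
    refine ⟨Σ j, Y j, sumT g t (hι.some, hC.some), ?_, ?_⟩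
    · rw [Cardinal.mk_sigma]
      simp [hY]
    · rintro ⟨i, y⟩
      have hinj : Function.Injective
          (fun q : {q : Σ j, Y j // (sumT g t (hι.some, hC.some) [q]).1 = i} => g i q.1) := by
        rintro ⟨⟨a, y1⟩, ha⟩ ⟨⟨b, y2⟩, hb'⟩ hab
        have ha' : a = i := ha
        have hb'' : b = i := hb'
        subst ha'
        subst hb''
        simp only [g, dif_pos] at hab
        subst hab
        rfl
      have := (G i).comap _ hinj (t i) (ht i)
      simpa [sumT, List.map_map, Function.comp_def] using this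
  · intro X s hs
    have h1 : ∀ i, #{x // (s [x]).1 = i} ≤ f i := by
      intro i
      by_cases hx : ∃ x, (s [x]).1 = i
      · obtain ⟨x, hx⟩ := hx
        have := hb _ _ _ (hs x)
        rw [hx] at this
        exact this
      · have : IsEmpty {x // (s [x]).1 = i} := ⟨fun x => hx ⟨x.1, x.2⟩⟩
        rw [Cardinal.mk_eq_zero]
        exact bot_le
    have h2 : #X = Cardinal.sum (fun i => #{x // (s [x]).1 = i}) := by
      rw [← Cardinal.mk_sigma]
      exact Cardinal.mk_congr (Equiv.sigmaFiberEquiv (fun x => (s [x]).1)).symm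
    rw [h2]
    exact Cardinal.sum_le_sum _ _ h1

end Pool.Agent.HL54
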