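import Pool.Agent.HL54.ReachDef
import Pool.Agent.HL54.Pow
import Pool.Agent.HL54.Succ
import Pool.Agent.HL54.Sum

set_option autoImplicit false

open Cardinal

universe u

namespace Pool.Agent.HL54

theorem Reach.aleph0_le {κ μ : Cardinal.{u}} (h : Reach κ μ) : ℵ₀ ≤ μ := by
  induction h with
  | base μ h₀ _ => exact h₀
  | succ μ _ ih => exact ih.trans (Order.le_succ μ)
  | pow μ _ ih => exact ih.trans (Cardinal.cantor μ).le
  | sup ι hne _ f _ ih =>
    exact (ih hne.some).trans (le_ciSup Cardinal.bddAbove_of_small hne.some)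

theorem Reach.char {κ : Cardinal.{u}} (hκ : ℵ₀ ≤ κ) {I : Type u} (hI : #I = κ)
    {μ : Cardinal.{u}} (h : Reach κ μ) : Char (I → Bool) μ := by
  have hC : #(I → Bool) = 2 ^ κ := by
    rw [← hI]
    simp
  have hinf : ℵ₀ ≤ (2 : Cardinal.{u}) ^ κ := hκ.trans (Cardinal.cantor κ).le
  have hmul : ∀ (A : Type u), #A ≤ 2 ^ κ → #(A × (I → Bool)) ≤ #(I → Bool) := by
    intro A hA
    rw [Cardinal.mk_prod, Cardinal.lift_id, Cardinal.lift_id, hC]
    calc #A * 2 ^ κ ≤ 2 ^ κ * 2 ^ κ := mul_le_mul_left hA _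
      _ = 2 ^ κ := Cardinal.mul_eq_self hinf
  have hbool : #(Bool × (I → Bool)) ≤ #(I → Bool) := by
    rw [Cardinal.mk_prod, hC, Cardinal.lift_uzero]
    calc Cardinal.lift.{u} #Bool * 2 ^ κ ≤ 2 ^ κ * 2 ^ κ := by
          refine mul_le_mul_left ?_ _
          rw [Cardinal.mk_bool, Cardinal.lift_two]
          exact (Cardinal.nat_lt_aleph0 2).le.trans hinf
      _ = 2 ^ κ := Cardinal.mul_eq_self hinf
  induction h with
  | base μ h₀ h₁ =>
    refine Char.base h₀ ?_
    rw [hC]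
    exact h₁
  | succ μ hμ ih =>
    exact (Char.succ hμ.aleph0_le ih).of_le ⟨(true, fun _ => true)⟩ hbool
  | pow μ hμ ih =>
    exact (Char.pow hμ.aleph0_le ih).of_le ⟨(true, fun _ => true)⟩ hbool
  | sup ι hne hι f hf ih =>
    have hs : Reach κ (⨆ i, f i) := Reach.sup ι hne hι f hf
    by_cases hle : (⨆ i, f i) ≤ 2 ^ κ
    · refine Char.base hs.aleph0_le ?_
      rw [hC]
      exact hle
    · rw [not_le] at hle
      have h1 : Char (ι × (I → Bool)) (Cardinal.sum f) :=
        Char.sum hne f (fun i => (hf i).aleph0_le) ih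
      have h2 : Cardinal.sum f = ⨆ i, f i := by
        refine le_antisymm ?_ (Cardinal.iSup_le_sum f)
        refine (Cardinal.sum_le_mk_mul_iSup f).trans ?_
        calc #ι * (⨆ i, f i) ≤ (⨆ i, f i) * (⨆ i, f i) :=
              mul_le_mul_left (hι.trans hle.le) _
          _ = ⨆ i, f i := Cardinal.mul_eq_self hs.aleph0_le
      rw [← h2]
      exact h1.of_le ⟨(hne.some, fun _ => true)⟩ (hmul ι hι)

end Pool.Agent.HL54
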