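import Pool.Agent.HL54.ReachDef

set_option autoImplicit false

open Cardinal Ordinal

universe u

namespace Pool.Agent.HL54

/-- suprema over limit ordinals -/
theorem Reach.limit {κ : Cardinal.{u}} {f : Ordinal.{u} → Cardinal.{u}}
    (hf : Order.IsNormal f) {β : Ordinal.{u}} (hβ : Order.IsSuccLimit β)
    (hc : β < (Order.succ (2 ^ κ : Cardinal.{u})).ord) (h : ∀ γ < β, Reach κ (f γ)) :
    Reach κ (f β) := by
  have h1 : f β = ⨆ i : β.ToType, f (ToType.mk.symm i).1 := by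
    rw [hf.apply_of_isSuccLimit hβ]
    exact (Equiv.iSup_comp (g := fun a : Set.Iio β => f a.1) ToType.mk.symm.toEquiv).symm
  rw [h1]
  have h0 : β ≠ 0 := by
    rintro rfl
    exact hβ.1 isMin_bot
  refine Reach.sup β.ToType (nonempty_toType_iff.2 h0) ?_ _ ?_
  · rw [Cardinal.mk_toType]
    exact Order.lt_succ_iff.1 (Cardinal.lt_ord.1 hc)
  · intro i
    exact h _ (ToType.mk.symm i).2

theorem Reach.normal {κ : Cardinal.{u}} {f : Ordinal.{u} → Cardinal.{u}}
    (hf : Order.IsNormal f) (h0 : Reach κ (f 0))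
    (hs : ∀ γ, Reach κ (f γ) → Reach κ (f (γ + 1))) {β : Ordinal.{u}}
    (hc : β < (Order.succ (2 ^ κ : Cardinal.{u})).ord) : Reach κ (f β) := by
  induction β using Ordinal.limitRecOn with
  | zero => exact h0
  | add_one γ ih => exact hs γ (ih ((lt_add_one γ).trans hc))
  | limit γ hγ ih => exact Reach.limit hf hγ hc (fun δ hδ => ih δ hδ (hδ.trans hc))

/-- every infinite `μ < ℵ_{θ + (2^κ)⁺}` is in the class, where `2 ^ κ = ℵ_θ` -/
theorem Reach.of_lt_aleph {κ : Cardinal.{u}} (_hκ : ℵ₀ ≤ κ) {θ : Ordinal.{u}}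
    (hθ : ℵ_ θ = 2 ^ κ) {μ : Cardinal.{u}} (h₀ : ℵ₀ ≤ μ)
    (hμ : μ < ℵ_ (θ + (Order.succ (2 ^ κ : Cardinal.{u})).ord)) : Reach κ μ := by
  obtain ⟨α, rfl⟩ := Cardinal.mem_range_aleph_iff.2 h₀
  rw [Cardinal.aleph_lt_aleph] at hμ
  rcases le_or_gt α θ with h | h
  · refine Reach.base _ h₀ ?_
    rw [← hθ]
    exact Cardinal.aleph_le_aleph.2 h
  · obtain ⟨β, rfl⟩ : ∃ β, α = θ + β := ⟨α - θ, (Ordinal.add_sub_cancel_of_le h.le).symm⟩
    have hβ := lt_of_add_lt_add_left hμ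
    refine Reach.normal (f := fun β => ℵ_ (θ + β))
      (Cardinal.isNormal_aleph.comp (isNormal_add_right θ)) ?_ ?_ hβ
    · refine Reach.base _ (Cardinal.aleph0_le_aleph _) ?_
      rw [add_zero, hθ]
    · intro γ hγ
      have h2 := Reach.succ _ hγ
      rw [Cardinal.succ_aleph, add_assoc] at h2
      exact h2

/-- every `ℶ_α` with `α < (2^κ)⁺` is in the class -/
theorem Reach.beth {κ : Cardinal.{u}} (hκ : ℵ₀ ≤ κ) {α : Ordinal.{u}}
    (hα : α < (Order.succ (2 ^ κ : Cardinal.{u})).ord) : Reach κ (ℶ_ α) := by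
  refine Reach.normal (f := fun β => ℶ_ β) Cardinal.isNormal_beth ?_ ?_ hα
  · refine Reach.base _ (Cardinal.aleph0_le_beth _) ?_
    rw [Cardinal.beth_zero]
    exact hκ.trans (Cardinal.cantor κ).le
  · intro γ hγ
    have h2 := Reach.pow _ hγ
    rw [← Cardinal.beth_add_one] at h2
    exact h2

end Pool.Agent.HL54
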