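import Pool.Agent.HL54.KClass
import Pool.Agent.HL54.ReachChar
import Pool.Agent.HL54.ReachFacts

set_option autoImplicit false

open FirstOrder Cardinal Ordinal

universe u

namespace Pool.Agent.HL54

/-- an AEC whose amalgamation spectrum is exactly `{θ | θ ≤ μ}` -/
theorem exists_aec {κ μ : Cardinal.{u}} (hκ : ℵ₀ ≤ κ) (h : Reach κ μ) :
    ∃ (L : FirstOrder.Language.{u, u}) (K : AEC L), L.card ≤ κ ∧ K.LS ≤ κ ∧
      K.AP μ ∧ ¬ K.AP (Order.succ μ) ∧ (∀ θ : Cardinal.{u}, K.AP θ ↔ θ ≤ μ) ∧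
      ∀ θ : Cardinal.{u}, ∃ (M : Type u) (_ : L.Structure M), K.mem M ∧ #M = θ := by
  have hI : #κ.out = κ := Cardinal.mk_out κ
  have hμ := h.aleph0_le
  obtain ⟨G, ⟨Y, t, hY, ht⟩, hb⟩ := h.char hκ hI
  have h1 : ∀ θ : Cardinal.{u}, (KG G).AP θ ↔ θ ≤ μ := by
    intro θ
    constructor
    · intro hAP
      by_contra hcon
      exact KG_not_AP G hμ (not_le.1 hcon) hb hAP
    · intro hθ
      exact KG_AP G hθ Y t hY ht
  refine ⟨lang κ.out, KG G, card_lang _ hκ hI, KG_LS G hκ hI, (h1 μ).2 le_rfl, ?_, h1, ?_⟩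
  · rw [h1]
    exact not_le.2 (Order.lt_succ μ)
  · intro θ
    exact ⟨Bot θ.out, botStr _, KG_mem_bot G _, Cardinal.mk_out θ⟩

end Pool.Agent.HL54
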