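import Mathlib

set_option autoImplicit false

open Cardinal Ordinal

universe u

namespace Pool.Agent.HL54

/-- The least class of cardinals which contains every infinite cardinal `≤ 2 ^ κ` and is closed
under `μ ↦ μ⁺`, `μ ↦ 2 ^ μ` and suprema of families of at most `2 ^ κ` members. -/
inductive Reach (κ : Cardinal.{u}) : Cardinal.{u} → Prop
  | base (μ : Cardinal.{u}) (h₀ : ℵ₀ ≤ μ) (h₁ : μ ≤ 2 ^ κ) : Reach κ μ
  | succ (μ : Cardinal.{u}) (h : Reach κ μ) : Reach κ (Order.succ μ)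
  | pow (μ : Cardinal.{u}) (h : Reach κ μ) : Reach κ (2 ^ μ)
  | sup (ι : Type u) (hne : Nonempty ι) (hι : #ι ≤ 2 ^ κ) (f : ι → Cardinal.{u})
      (h : ∀ i, Reach κ (f i)) : Reach κ (⨆ i, f i)

end Pool.Agent.HL54
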