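import Pool.Agent.HL54.Base

set_option autoImplicit false

open Cardinal

universe u

namespace Pool.Agent.HL54

/-- the class used for successors: `(t [x,y]).1` is a strict total order and
`l ↦ (t (x :: l)).2` is a `G`-structure on the initial segment of `x` -/
def succMem {C : Type u} (G : UClass C) (X : Type u) (t : List X → Bool × C) : Prop :=
  (∀ x : X, (t [x, x]).1 = false) ∧
  (∀ x y z : X, (t [x, y]).1 = true → (t [y, z]).1 = true → (t [x, z]).1 = true) ∧
  (∀ x y : X, x ≠ y → (t [x, y]).1 = true ∨ (t [y, x]).1 = true) ∧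
  (∀ x : X, G.mem {y // (t [y, x]).1 = true} (fun l => (t (x :: l.map Subtype.val)).2))

def succClass {C : Type u} (G : UClass C) : UClass (Bool × C) where
  mem := succMem G
  comap := by
    intro Y Z f hf t ⟨h1, h2, h3, h4⟩
    refine ⟨fun x => h1 (f x), fun x y z => h2 (f x) (f y) (f z),
      fun x y hxy => h3 (f x) (f y) (fun h => hxy (hf h)), fun x => ?_⟩
    have := G.comap (Y := {y // (t ([y, x].map f)).1 = true})
      (Z := {y // (t [y, f x]).1 = true}) (fun y => ⟨f y.1, y.2⟩)
      (fun a b hab => Subtype.ext (hf (congrArg Subtype.val hab))) _ (h4 (f x))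
    simpa [List.map_map, Function.comp_def] using this
  loc := by
    intro Y t hF
    classical
    refine ⟨fun x => ?_, fun x y z hxy hyz => ?_, fun x y hxy => ?_, fun x => ?_⟩
    · exact (hF {x}).1 ⟨x, by simp⟩
    · exact (hF {x, y, z}).2.1 ⟨x, by simp⟩ ⟨y, by simp⟩ ⟨z, by simp⟩ hxy hyz
    · exact (hF {x, y}).2.2.1 ⟨x, by simp⟩ ⟨y, by simp⟩
        (fun h => hxy (congrArg Subtype.val h))
    · apply G.loc
      intro F
      let F' : Finset Y := insert x (F.image Subtype.val)
      have h4 := (hF F').2.2.2 ⟨x, by simp [F']⟩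
      have := G.comap (Y := {y // y ∈ F})
        (Z := {y : {z // z ∈ F'} // (t ([y, ⟨x, by simp [F']⟩].map Subtype.val)).1 = true})
        (fun y => ⟨⟨y.1.1, by
          simp only [F', Finset.mem_insert, Finset.mem_image]
          exact Or.inr ⟨y.1, y.2, rfl⟩⟩, y.1.2⟩)
        (fun a b hab => Subtype.ext (Subtype.ext (congrArg (fun w => w.1.1) hab))) _ h4
      simpa [List.map_map, Function.comp_def] using this

theorem le_succ_of_segments {X : Type u} {μ : Cardinal.{u}} (hμ : ℵ₀ ≤ μ) (r : X → X → Prop)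
    (h3 : ∀ x y : X, x ≠ y → r x y ∨ r y x) (h4 : ∀ x, #{y // r y x} ≤ μ) :
    #X ≤ Order.succ μ := by
  by_contra hcon
  rw [not_le] at hcon
  obtain ⟨S, hS⟩ := Cardinal.le_mk_iff_exists_set.1 hcon.le
  by_cases hb : ∃ x, ∀ s ∈ S, r s x ∨ s = x
  · obtain ⟨x, hx⟩ := hb
    have h5 : S ⊆ insert x {y | r y x} := by
      intro s hs
      rcases hx s hs with h | h
      · exact Or.inr h
      · exact Or.inl h
    have h6 : #S ≤ μ + 1 := by
      calc #S ≤ #(insert x {y | r y x} : Set X) := Cardinal.mk_le_mk_of_subset h5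
        _ ≤ #({y | r y x} : Set X) + 1 := Cardinal.mk_insert_le
        _ ≤ μ + 1 := by gcongr; exact h4 x
    rw [hS, Cardinal.add_one_eq hμ] at h6
    exact absurd (Order.lt_succ μ) (not_lt.2 h6)
  · push Not at hb
    have h5 : (Set.univ : Set X) ⊆ ⋃ s : S, {y | r y s.1} := by
      intro x _
      obtain ⟨s, hs, h6, h7⟩ := hb x
      rcases h3 s x h7 with h | h
      · exact absurd h h6
      · exact Set.mem_iUnion.2 ⟨⟨s, hs⟩, h⟩
    have h6 : #X ≤ Order.succ μ := by
      calc #X = #(Set.univ : Set X) := Cardinal.mk_univ.symm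
        _ ≤ #(⋃ s : S, {y | r y s.1}) := Cardinal.mk_le_mk_of_subset h5
        _ ≤ Cardinal.sum (fun s : S => #({y | r y s.1} : Set X)) := Cardinal.mk_iUnion_le_sum_mk
        _ ≤ Cardinal.sum (fun _ : S => μ) := Cardinal.sum_le_sum _ _ (fun s => h4 s.1)
        _ = #S * μ := Cardinal.sum_const' _ _
        _ ≤ Order.succ μ * Order.succ μ := by
            rw [hS]; gcongr; exact Order.le_succ μ
        _ = Order.succ μ := Cardinal.mul_eq_self (hμ.trans (Order.le_succ μ))
    exact absurd hcon (not_lt.2 h6)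

end Pool.Agent.HL54
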